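import Pool.Agent.N874.PM.Stm
import Pool.Agent.N199.PP.GL
import Pool.Agent.N630.PP.GP
import Pool.Agent.N352.PP.Loc

/-!
# The local condition over a general field of fractions

Project PM (helper874), part GLR: a cocycle with values in the points of order two which is locally
trivial satisfies the local condition in terms of polynomials, with a point not of order two.
Adapted from `Pool.Agent.N199.PP.GL`.
-/

set_option autoImplicit false
set_option linter.all false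

open Polynomial IsDedekindDomain WeierstrassCurve WeierstrassCurve.Affine
open Pool.Agent.TH115.GD Pool.Agent.N874.PP Pool.Agent.N199.PP
open scoped Classical

namespace Pool.Agent.N426.PM

open Pool.Agent.N630.PP Pool.Agent.N352.PP

section far

variable {M R : Type} [Field M] [CommRing R] [IsDedekindDomain R] [Algebra R M]
  [IsFractionRing R M]

/-- a small element -/
theorem exists_small (A B : M) (v : HeightOneSpectrum R) : ∃ s : M, s ≠ 0 ∧
    v.valuation M (A * s ^ 4) < 1 ∧ v.valuation M (B * s ^ 6) < 1 := by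
  obtain ⟨a, b, hb, hA⟩ := IsFractionRing.div_surjective (A := R) A
  obtain ⟨c, d, hd, hB⟩ := IsFractionRing.div_surjective (A := R) B
  obtain ⟨π, hπ, hπ0⟩ := Submodule.exists_mem_ne_zero_of_ne_bot v.ne_bot
  have hb0 : algebraMap R M b ≠ 0 := by
    rw [Ne, map_eq_zero_iff _ (IsFractionRing.injective R M)]
    exact nonZeroDivisors.ne_zero hb
  have hd0 : algebraMap R M d ≠ 0 := by
    rw [Ne, map_eq_zero_iff _ (IsFractionRing.injective R M)]
    exact nonZeroDivisors.ne_zero hd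
  have hp0 : algebraMap R M π ≠ 0 := by
    rw [Ne, map_eq_zero_iff _ (IsFractionRing.injective R M)]
    exact hπ0
  refine ⟨algebraMap R M π * algebraMap R M b * algebraMap R M d,
    mul_ne_zero (mul_ne_zero hp0 hb0) hd0, ?_, ?_⟩
  · have e1 : A * (algebraMap R M π * algebraMap R M b * algebraMap R M d) ^ 4 =
        algebraMap R M (π * (π ^ 3 * a * b ^ 3 * d ^ 4)) := by
      rw [← hA]
      simp only [map_mul, map_pow]
      field_simp
    rw [e1, HeightOneSpectrum.valuation_lt_one_iff_mem]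
    exact Ideal.mul_mem_right _ _ hπ
  · have e1 : B * (algebraMap R M π * algebraMap R M b * algebraMap R M d) ^ 6 =
        algebraMap R M (π * (π ^ 5 * c * b ^ 6 * d ^ 5)) := by
      rw [← hB]
      simp only [map_mul, map_pow]
      field_simp
    rw [e1, HeightOneSpectrum.valuation_lt_one_iff_mem]
    exact Ideal.mul_mem_right _ _ hπ

/-- a point whose order does not divide four -/
theorem far (A B : M) (h6 : (6 : M) ≠ 0) (hD : 4 * A ^ 3 + 27 * B ^ 2 ≠ 0)
    (v : HeightOneSpectrum R) (hv2 : v.valuation M 2 = 1) :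
    ∃ P0 : Pt (sW A B) (Comp R M v), (2 : ℕ) • (2 : ℕ) • P0 ≠ 0 := by
  obtain ⟨s, hs0, hsA, hsB⟩ := exists_small A B v
  obtain ⟨F, hF⟩ : ∃ F : M →+* v.adicCompletion M, F = algebraMap M (v.adicCompletion M) :=
    ⟨_, rfl⟩
  have hvF : ∀ x, vv v (F x) = v.valuation M x := fun x => by rw [hF]; exact vv_coe v x
  have hS := isS (Ω := Comp R M v) h6 hD
  have hs' : F s ≠ 0 := (_root_.map_ne_zero _).2 hs0
  have hA4 : vv v (F A * F s ^ 4) < 1 := by
    rw [← map_pow, ← map_mul, hvF]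
    exact hsA
  have hB6 : vv v (F B * F s ^ 6) < 1 := by
    rw [← map_pow, ← map_mul, hvF]
    exact hsB
  have h3 : vv v (3 : v.adicCompletion M) ≤ 1 := by
    have e1 : (3 : v.adicCompletion M) = F (algebraMap R M 3) := by
      rw [map_ofNat, map_ofNat]
    rw [e1, hvF]
    exact v.valuation_le_one 3
  obtain ⟨z, hz, hz1⟩ := sqrt_one v hv2 (1 + F A * F s ^ 4 + F B * F s ^ 6) (by
    have e1 : 1 + F A * F s ^ 4 + F B * F s ^ 6 - 1 = F A * F s ^ 4 + F B * F s ^ 6 := by ring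
    rw [e1]
    exact Valuation.map_add_lt _ hA4 hB6)
  have hz0 : z ≠ 0 := by
    rintro rfl
    rw [zero_sub, Valuation.map_neg, map_one] at hz1
    exact lt_irrefl _ hz1
  obtain ⟨x0, hx0⟩ : ∃ x0 : Comp R M v, x0 = (F s ^ 2)⁻¹ := ⟨_, rfl⟩
  obtain ⟨y0, hy0⟩ : ∃ y0 : Comp R M v, y0 = z * (F s ^ 3)⁻¹ := ⟨_, rfl⟩
  have hy00 : y0 ≠ 0 := by
    rw [hy0]
    exact mul_ne_zero hz0 (inv_ne_zero (pow_ne_zero _ hs'))
  have hns : ((sW A B).baseChange (Comp R M v)).toAffine.Nonsingular x0 y0 := by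
    have heq : (z * (F s ^ 3)⁻¹) ^ 2 = ((F s ^ 2)⁻¹) ^ 3 + F A * (F s ^ 2)⁻¹ + F B := by
      rw [mul_pow, hz]
      field_simp
    rw [hF] at heq
    rw [hS.nonsingular, hx0, hy0, hF]
    exact heq
  refine ⟨Point.some x0 y0 hns, fun h4 => ?_⟩
  have h2P : (2 : ℕ) • (Point.some x0 y0 hns : Pt (sW A B) (Comp R M v)) ≠ 0 := by
    rw [two_nsmul]
    intro h
    exact hy00 ((add_self_eq_zero_iff hS hns).1 h)
  rcases tor_cases h6 hD _ h4 with h | ⟨e, he, hT, hR⟩
  · exact h2P h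
  obtain ⟨X, Y, hXY, h5, h7⟩ := gp1 M (Comp R M v) A B h6 hD _ h2P
  rw [hT] at h5
  have hXe : e = X := (Point.some.inj h5).1
  have h8 := h7 e hR
  rw [← hXe, sub_self] at h8
  have h9 : rr e (Point.some x0 y0 hns : Pt (sW A B) (Comp R M v)) = 0 :=
    pow_eq_zero_iff (two_ne_zero) |>.1 h8
  have h10 : (x0 - e) ^ 2 - (3 * e ^ 2 + algebraMap M (Comp R M v) A) = 0 := by
    have h11 : ((x0 - e) ^ 2 - (3 * e ^ 2 + algebraMap M (Comp R M v) A)) / (2 * y0) = 0 := h9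
    rcases div_eq_zero_iff.1 h11 with h | h
    · exact h
    · exact absurd h (mul_ne_zero hS.two hy00)
  obtain ⟨e', he'⟩ : ∃ e' : v.adicCompletion M, e' = e := ⟨_, rfl⟩
  have hR' : e' ^ 3 + F A * e' + F B = 0 := by
    rw [he', hF]
    exact hR
  have h10' : ((F s ^ 2)⁻¹ - e') ^ 2 - (3 * e' ^ 2 + F A) = 0 := by
    rw [he', hF]
    rw [hx0, hF] at h10
    exact h10
  obtain ⟨u, hu⟩ : ∃ u, u = F s ^ 2 * e' := ⟨_, rfl⟩
  have hu1 : u ^ 3 + (F A * F s ^ 4) * u + F B * F s ^ 6 = 0 := by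
    rw [hu]
    linear_combination F s ^ 6 * hR'
  have hu2 : (1 - u) ^ 2 = 3 * u ^ 2 + F A * F s ^ 4 := by
    rw [hu]
    have e1 : (1 - F s ^ 2 * e') ^ 2 = F s ^ 4 * ((F s ^ 2)⁻¹ - e') ^ 2 := by
      field_simp
    rw [e1]
    linear_combination F s ^ 4 * h10'
  have hu3 : vv v u < 1 := by
    by_contra hcon
    push Not at hcon
    have e1 : u ^ 3 = -((F A * F s ^ 4) * u + F B * F s ^ 6) := by linear_combination hu1
    have e2 : vv v (u ^ 3) < vv v u ^ 3 := by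
      rw [e1, Valuation.map_neg]
      apply Valuation.map_add_lt
      · rw [map_mul]
        calc vv v (F A * F s ^ 4) * vv v u < 1 * vv v u :=
              mul_lt_mul_of_pos_right hA4 (lt_of_lt_of_le zero_lt_one hcon)
          _ = vv v u ^ 1 := by rw [one_mul, pow_one]
          _ ≤ vv v u ^ 3 := pow_le_pow_right₀ hcon (by norm_num)
      · exact lt_of_lt_of_le hB6 (one_le_pow₀ hcon)
    rw [map_pow] at e2
    exact lt_irrefl _ e2
  have hu4 : vv v ((1 - u) ^ 2) < 1 := by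
    rw [hu2]
    apply Valuation.map_add_lt
    · rw [map_mul, map_pow]
      calc vv v 3 * vv v u ^ 2 ≤ 1 * vv v u ^ 2 := mul_le_mul_left h3 _
        _ = vv v u ^ 2 := one_mul _
        _ < 1 := pow_lt_one₀ zero_le hu3 (by norm_num)
    · exact hA4
  have hu5 : vv v (1 - u) = 1 := by
    have := Valuation.map_sub_eq_of_lt_right (vv v) (x := u) (y := 1) (by rwa [map_one])
    rw [Valuation.map_sub_swap, this, map_one]
  rw [map_pow, hu5, one_pow] at hu4
  exact lt_irrefl _ hu4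

end far

/-- (GLR) the local condition -/
theorem glr (h1 : S_GP1) (h2 : S_GP2) (h3 : S_GP3) (h4 : S_GP4) : Pool.Agent.N874.PM.S_GLR := by
  intro M R _ _ _ _ _ A B h6' hD f hf hf2 β h hβ hh v hv2 hloc
  obtain ⟨ι, P₁, hP₁⟩ := hloc
  obtain ⟨Z, hZ3, hZ⟩ := exists_Z (Ω := Sep M) A B hD
  obtain ⟨ι', hι'⟩ : ∃ ι' : Sep M →ₐ[M] Sep (Comp R M v), ι' = ι.restrictScalars M := ⟨_, rfl⟩
  have hιx : ∀ x, ι x = ι' x := fun x => by rw [hι']; rfl
  simp only [hιx] at hP₁
  rw [← hι'] at hP₁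
  have hres : ∀ τ : Sep (Comp R M v) ≃ₐ[Comp R M v] Sep (Comp R M v),
      ∃ σ : Sep M ≃ₐ[M] Sep M, ∀ x, τ (ι' x) = ι' (σ x) := fun τ => exists_res ι' τ
  -- the points of order two
  have hT2 : ∀ σ : Sep M ≃ₐ[M] Sep M, (2 : ℕ) • act (sW A B) ι' (f σ) = 0 := by
    intro σ
    rw [← map_nsmul, hf2, map_zero]
  -- a point `P` with `4 P ≠ 0`
  obtain ⟨P, h4P, hTP⟩ : ∃ P : Pt (sW A B) (Sep (Comp R M v)), (2 : ℕ) • (2 : ℕ) • P ≠ 0 ∧
      ∀ (τ : Sep (Comp R M v) ≃ₐ[Comp R M v] Sep (Comp R M v))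
      (σ : Sep M ≃ₐ[M] Sep M), (∀ x, τ (ι' x) = ι' (σ x)) →
      act (sW A B) (rs M τ) P = P + act (sW A B) ι' (f σ) := by
    by_cases hc : (2 : ℕ) • (2 : ℕ) • P₁ = 0
    · obtain ⟨P0, hP0⟩ := far A B h6' hD v hv2
      refine ⟨P₁ + act (sW A B) (incl M (Comp R M v) (Sep (Comp R M v))) P0, ?_, ?_⟩
      · rw [smul_add, smul_add, hc, zero_add, ← map_nsmul, ← map_nsmul]
        intro h0
        apply hP0
        apply act_inj (sW A B) (incl M (Comp R M v) (Sep (Comp R M v)))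
        rw [h0, map_zero]
      · intro τ σ hτσ
        rw [map_add, rs_act_incl, hP₁ τ σ hτσ]
        abel
    · refine ⟨P₁, hc, fun τ σ hτσ => ?_⟩
      rw [hP₁ τ σ hτσ]
      abel
  have hPP : (2 : ℕ) • P ≠ 0 := fun h0 => h4P (by rw [h0, smul_zero])
  -- the values of `h`
  have hval : ∀ t ∈ Z, eval (ι' t) ((h.map (algebraMap M (Comp R M v))).map
      (algebraMap (Comp R M v) (Sep (Comp R M v)))) = ι' (β t) ^ 2 := by
    intro t ht
    rw [Polynomial.map_map, ← IsScalarTower.algebraMap_eq, ← map_pow,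
      ← hh t ((mem_Z hZ t).1 ht), eval_map_algebraMap]
    exact aeval_algHom_apply ι' t h
  right
  obtain ⟨x, y, hxy, h2P, hrr⟩ := h1 M _ _ _ h6' hD P hPP
  obtain ⟨Q, hQ⟩ := fixed_point (K := M) (F := Comp R M v) (sW A B) ((2 : ℕ) • P) (by
      intro τ
      obtain ⟨σ, hσ⟩ := hres τ
      rw [map_nsmul, hTP τ σ hσ, smul_add, hT2, add_zero])
  rcases Q with _ | ⟨x0, y0, hq⟩
  · exact absurd hQ.symm hPP
  have hy0 : y0 ≠ 0 := by
    rintro rfl
    apply h4P
    rw [← hQ, ← map_nsmul, two_smul_tor h6' hD hq, map_zero]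
  rw [h2P] at hQ
  have hx0 : algebraMap (Comp R M v) (Sep (Comp R M v)) x0 = x := (Point.some.inj hQ).1
  obtain ⟨H, hH⟩ : ∃ H : (Comp R M v)[X],
    H = (C x0 - X) * h.map (algebraMap M (Comp R M v)) := ⟨_, rfl⟩
  suffices key : ∃ g : (Comp R M v)[X], cub (algebraMap M (Comp R M v) A)
      (algebraMap M (Comp R M v) B) ∣ H - g ^ 2 by
    rw [hH] at key
    exact ⟨x0, y0, hy0, eq_of_nonsing hq, key⟩
  refine interp hZ hZ3 ι' hres (fun t => rr (ι' t) P * ι' (β t)) ?_ H ?_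
  · intro τ σ hτσ t ht
    have hR := (mem_Z hZ t).1 ht
    have hR' : Rt A B (σ t) := Rt_map (σ : Sep M →ₐ[M] Sep M) hR
    have hR'' : Rt A B (ι' (σ t)) := Rt_map ι' hR'
    have e1 : τ (rr (ι' t) P) = rr (ι' (σ t)) (P + act (sW A B) ι' (f σ)) := by
      rw [← hTP τ σ hτσ, ← hτσ]
      exact ((h4 M _ _ _ _ (rs M τ) P (ι' t)).2).symm
    have e2 := h2 M _ _ _ h6' hD P _ hPP (hT2 σ) (ι' (σ t)) hR''
    have e3 : sg (act (sW A B) ι' (f σ)) (ι' (σ t)) =
        ι' (sg (f σ) (σ t)) := (h4 M _ _ _ _ ι' (f σ) (σ t)).1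
    have e4 : τ (ι' (β t)) = ι' (sg (f σ) (σ t)) * ι' (β (σ t)) := by
      rw [hτσ, (hβ t hR).2 σ, map_mul]
    show τ (rr (ι' t) P * ι' (β t)) = rr (ι' (σ t)) P * ι' (β (σ t))
    rw [map_mul, e1, e2, e3, e4]
    have e5 : ι' (sg (f σ) (σ t)) * ι' (sg (f σ) (σ t)) = 1 := by
      rw [← map_mul, sg_sq, map_one]
    linear_combination (rr (ι' (σ t)) P * ι' (β (σ t))) * e5
  · intro t ht
    rw [hH, Polynomial.map_mul, eval_mul, hval t ht, Polynomial.map_sub, map_C, map_X, eval_sub,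
      eval_C, eval_X, hx0]
    have e5 := hrr (ι' t) (Rt_map ι' ((mem_Z hZ t).1 ht))
    linear_combination (-(ι' (β t)) ^ 2) * e5

end Pool.Agent.N426.PM
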